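import Mathlib

namespace Pool.Agent.Results.MP_a92470_an.TwoPoint

open scoped ComplexOrder
open Matrix

variable {X : Type*}

/-- the matrix-valued function `K` is positive semidefinite on `A`. -/
def PosOn {n : ℕ} (A : Set X) (K : X → X → Matrix (Fin n) (Fin n) ℂ) : Prop :=
  ∀ F : Finset X, ↑F ⊆ A → ∀ v : X → Fin n → ℂ,
    0 ≤ ∑ x ∈ F, ∑ y ∈ F, star (v x) ⬝ᵥ K x y *ᵥ v y

/-- `k` restricted to `A` is a kernel. -/
def KerOn (A : Set X) (k : X → X → ℂ) : Prop :=
  ∀ F : Finset X, ↑F ⊆ A → ∀ c : X → ℂ, 0 ≤ ∑ x ∈ F, ∑ y ∈ F, star (c x) * k x y * c y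

/-- `s` restricted to `A` is a kernel with the complete Pick property; `Φ` is a contractive
multiplier of `H(s) ⊗ ℂⁿ` exactly when `(1 - Φ(x) Φ(y)*) s(x,y)` is positive. -/
def CPOn (A : Set X) (s : X → X → ℂ) : Prop :=
  KerOn A s ∧ ∀ n : ℕ, 1 ≤ n → ∀ F : Finset X, ↑F ⊆ A → ∀ W : X → Matrix (Fin n) (Fin n) ℂ,
    PosOn ↑F (fun x y => s x y • (1 - W x * (W y)ᴴ)) →
      ∃ Φ : X → Matrix (Fin n) (Fin n) ℂ,
        PosOn A (fun x y => s x y • (1 - Φ x * (Φ y)ᴴ)) ∧ ∀ x ∈ F, Φ x = W x

/-- `t` is a certificate for `k` over `A`. -/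
def CertOn (A : Set X) (k t : X → X → ℂ) : Prop :=
  CPOn A t ∧ ∃ h, KerOn A h ∧ ∀ x ∈ A, ∀ y ∈ A, k x y = (1 - h x y) * t x y

/-- minimality of `s` over `A`. -/
def MinOn (A : Set X) (k s : X → X → ℂ) : Prop :=
  ∀ t, CertOn A k t → KerOn A fun x y => t x y / s x y

lemma canc {a b : ℂ} (ha : 0 < a) (h : 0 ≤ a * b) : 0 ≤ b := by
  obtain ⟨h1, h2⟩ := Complex.lt_def.1 ha
  obtain ⟨h3, h4⟩ := Complex.le_def.1 h
  simp only [Complex.zero_re, Complex.zero_im, Complex.mul_re, Complex.mul_im, ← h2, zero_mul,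
    sub_zero, add_zero] at *
  exact Complex.le_def.2 ⟨nonneg_of_mul_nonneg_right h3 h1,
    ((mul_eq_zero.1 h4.symm).resolve_left h1.ne').symm⟩

lemma one {A : Set X} {k : X → X → ℂ} (h : KerOn A k) {x : X} (hx : x ∈ A) : 0 ≤ k x x := by
  simpa using h {x} (by simpa) 1

lemma two {A : Set X} {k : X → X → ℂ} (h : KerOn A k) {x y : X} (hx : x ∈ A) (hy : y ∈ A)
    (hxy : x ≠ y) (a b : ℂ) :
    0 ≤ star a * k x x * a + star a * k x y * b + (star b * k y x * a + star b * k y y * b) := by
  classical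
  have := h {x, y} (by simp [Set.insert_subset_iff, hx, hy]) (fun z => if z = x then a else b)
  simpa [Finset.sum_pair hxy, hxy.symm] using this

lemma diag_ne {A : Set X} {k : X → X → ℂ} (h : KerOn A k) {x y : X} (hx : x ∈ A) (hy : y ∈ A)
    (hxy : x ≠ y) (h0 : k x x = 0) : k x y = 0 ∧ k y x = 0 := by
  have h1 := fun a => Complex.le_def.1 (two h hx hy hxy a 1)
  have e1 := (h1 1).2
  have e2 := (h1 Complex.I).2
  have e3 := (Complex.le_def.1 (one h hy)).2
  have key : ∀ u v : ℝ, (∀ t : ℝ, 0 ≤ t * u + v) → u = 0 := fun u v H => by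
    by_contra hu
    have := H (-(v + 1) / u)
    rw [div_mul_cancel₀ _ hu] at this
    linarith
  have e4 := key ((k x y).re + (k y x).re) (k y y).re fun t => by
    have := (h1 t).1; simp [h0] at this; linarith
  have e5 := key ((k x y).im - (k y x).im) (k y y).re fun t => by
    have := (h1 (t * Complex.I)).1; simp [h0] at this; linarith
  simp [h0] at e1 e2 e3
  constructor <;> apply Complex.ext <;> simp <;> linarith

open scoped MatrixOrder in
lemma const {n : ℕ} {A : Set X} {k : X → X → ℂ} (h : KerOn A k) {M : Matrix (Fin n) (Fin n) ℂ}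
    (hM : M.PosSemidef) : PosOn A fun x y => k x y • M := by
  intro F hF v
  obtain ⟨B, rfl⟩ := CStarAlgebra.nonneg_iff_eq_star_mul_self.1 hM.nonneg
  have : ∀ x y, star (v x) ⬝ᵥ (k x y • (star B * B)) *ᵥ v y =
      ∑ i, star ((B *ᵥ v x) i) * k x y * (B *ᵥ v y) i := fun x y => by
    rw [smul_mulVec, dotProduct_smul, ← mulVec_mulVec, dotProduct_mulVec, star_eq_conjTranspose,
      ← star_mulVec, dotProduct, smul_eq_mul, Finset.mul_sum]
    exact Finset.sum_congr rfl fun i _ => by simp only [Pi.star_apply]; ring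
  simp only [this]
  rw [Finset.sum_congr rfl fun x _ => Finset.sum_comm, Finset.sum_comm]
  exact Finset.sum_nonneg fun i _ => h F hF fun x => (B *ᵥ v x) i

lemma cp2 {k : X → X → ℂ} {x y : X} (h : KerOn {x, y} k) (hx : k x x ≠ 0) (hy : k y y ≠ 0) :
    CPOn {x, y} k := by
  classical
  refine ⟨h, fun n _ F hF W hW => ?_⟩
  by_cases h2 : (F : Set X) = {x, y}
  · exact ⟨W, h2 ▸ hW, fun _ _ => rfl⟩
  rcases F.eq_empty_or_nonempty with rfl | ⟨z, hz⟩
  · exact ⟨fun _ => 0, by simpa using const h (PosSemidef.one (n := Fin n)), by simp⟩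
  have hz' := hF hz
  have hzz : 0 < k z z := lt_of_le_of_ne (one h hz') (by rcases hz' with rfl | rfl <;> simp [Ne.symm, *])
  refine ⟨fun _ => W z, const h ?_, fun w hw => ?_⟩
  · refine PosSemidef.of_dotProduct_mulVec_nonneg
      (isHermitian_one.sub (isHermitian_mul_conjTranspose_self _)) fun v => ?_
    have := hW {z} (by simpa) fun _ => v
    simp only [Finset.sum_singleton, smul_mulVec, dotProduct_smul, smul_eq_mul] at this
    exact canc hzz this
  · by_contra hne
    refine h2 (hF.antisymm ?_)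
    have hw' := hF hw
    rcases hz' with rfl | rfl <;> rcases hw' with rfl | rfl <;>
      simp_all [Set.insert_subset_iff]

theorem result (k s h : X → X → ℂ) (hk : KerOn Set.univ k) (hs : CPOn Set.univ s)
    (hh : KerOn Set.univ h) (e : ∀ x y, k x y = (1 - h x y) * s x y)
    (hmin : ∀ A : Set X, A.Nonempty → (∀ x ∈ A, ∀ y ∈ A, s x y ≠ 0) → MinOn A k s) :
    CPOn Set.univ k ∧ ∃ δ : X → ℂ, ∀ x y, k x y = δ x * star (δ y) * s x y := by
  classical
  have u := Set.mem_univ (α := X)
  have hd : ∀ x, s x x ≠ 0 → 0 ≤ 1 - h x x := fun x hx => by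
    have := one hk (u x)
    rw [e, mul_comm] at this
    exact canc (lt_of_le_of_ne (one hs.1 (u x)) hx.symm) this
  have key : ∀ x y, s x y ≠ 0 → h x y = h x x ∧ h y y = h x x := by
    intro x y hxy
    by_cases hne : x = y
    · subst hne; exact ⟨rfl, rfl⟩
    have s1 : s x x ≠ 0 := fun h0 => hxy (diag_ne hs.1 (u x) (u y) hne h0).1
    have s2 : s y y ≠ 0 := fun h0 => hxy (diag_ne hs.1 (u y) (u x) (Ne.symm hne) h0).2
    have s3 : s y x ≠ 0 := fun h0 => by
      have a := (Complex.le_def.1 (two hs.1 (u x) (u y) hne 1 1)).2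
      have b := (Complex.le_def.1 (two hs.1 (u x) (u y) hne 1 Complex.I)).2
      have c := (Complex.le_def.1 (one hs.1 (u x))).2
      have d := (Complex.le_def.1 (one hs.1 (u y))).2
      simp [h0] at a b c d
      exact hxy (Complex.ext (by simp; linarith) (by simp; linarith))
    have z : ∀ a b, a ≠ b → s a b ≠ 0 → s b a ≠ 0 → s b b ≠ 0 → k a a = 0 → s a a ≠ 0 →
        h a b = h a a ∧ h b b = h a a ∧ h b a = h a a := by
      intro a b hab t1 t2 t3 h0 t4
      obtain ⟨p1, p2⟩ := diag_ne hk (u a) (u b) hab h0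
      rw [e, mul_eq_zero, or_iff_left ‹_›, sub_eq_zero] at p1 p2 h0
      have p3 := two hh (u a) (u b) hab 1 (-1)
      rw [← p1, ← p2, ← h0] at p3
      refine ⟨p1.symm.trans h0, ?_, p2.symm.trans h0⟩
      rw [← h0]
      refine le_antisymm (sub_nonneg.1 (hd b t3)) (sub_nonneg.1 ?_)
      convert p3 using 1
      simp
      ring
    by_cases k1 : k x x = 0
    · exact ⟨(z x y hne hxy s3 s2 k1 s1).1, (z x y hne hxy s3 s2 k1 s1).2.1⟩
    by_cases k2 : k y y = 0
    · obtain ⟨-, p, q⟩ := z y x (Ne.symm hne) s3 hxy s1 k2 s2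
      exact ⟨q.trans p.symm, p.symm⟩
    have hq := hmin {x, y} (by simp) (by simp [*]) k ⟨cp2 (fun F _ => hk F (by simp)) k1 k2,
      0, fun F _ c => by simp, by simp⟩
    have g := fun a b => two hq (x := x) (y := y) (by simp) (by simp) hne a b
    simp only [e, mul_div_cancel_right₀ _ hxy, mul_div_cancel_right₀ _ s1,
      mul_div_cancel_right₀ _ s2, mul_div_cancel_right₀ _ s3] at g
    have f := two hh (u x) (u y) hne
    have c := (Complex.le_def.1 (one hh (u x))).2
    have d := (Complex.le_def.1 (one hh (u y))).2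
    have f0 := Complex.le_def.1 (f 1 (-1))
    have g0 := Complex.le_def.1 (g 1 (-1))
    have f3 := (Complex.le_def.1 (f 1 Complex.I)).2
    have key : ∀ u v : ℝ, (∀ t : ℝ, 0 ≤ t * u + t ^ 2 * v) → u = 0 := fun u v H => by
      have h1 : ∀ t : ℝ, 0 ≤ v * (t * t) + u * t + 0 := fun t => by nlinarith [H t]
      have := discrim_le_zero h1
      simp only [discrim] at this
      nlinarith
    simp at c d f0 g0 f3
    have f1 := key (2 * (h x x).re - (h x y).re - (h y x).re) (h x x).re fun t => by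
      have := (Complex.le_def.1 (f (1 + t) (-1))).1
      simp at this
      nlinarith
    have f2 := key (-2 * (h x y).im) (h x x).re fun t => by
      have := (Complex.le_def.1 (f (1 + t * Complex.I) (-1))).1
      simp at this
      rw [show (h y x).im = -(h x y).im by linarith [f0.2]] at this
      nlinarith [g0.1]
    constructor <;> apply Complex.ext <;> linarith
  obtain ⟨δ, hδ⟩ : ∃ δ : X → ℂ, ∀ x y, k x y = δ x * star (δ y) * s x y := by
    refine ⟨fun x => √(1 - h x x).re, fun x y => ?_⟩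
    by_cases hxy : s x y = 0
    · simp [e, hxy]
    obtain ⟨p, q⟩ := key x y hxy
    have s1 : s x x ≠ 0 := fun h0 => by
      by_cases hne : x = y
      · subst hne; exact hxy h0
      · exact hxy (diag_ne hs.1 (u x) (u y) hne h0).1
    have := Complex.le_def.1 (hd x s1)
    beta_reduce
    rw [e, p, q, Complex.star_def, Complex.conj_ofReal, ← Complex.ofReal_mul,
      Real.mul_self_sqrt (by simpa using this.1)]
    congr 1
    exact Complex.ext rfl (by simpa using this.2.symm)
  refine ⟨⟨hk, fun n hn F _ W hW => ?_⟩, δ, hδ⟩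
  obtain ⟨Φ, h1, h2⟩ := hs.2 n hn (F.filter fun x => δ x ≠ 0) (by simp) W fun G hG v => by
    have hG' : ∀ x ∈ G, x ∈ F ∧ δ x ≠ 0 := fun x hx => by simpa using hG hx
    refine le_of_le_of_eq (hW G (fun x hx => (hG' x hx).1) fun x => (star (δ x))⁻¹ • v x) ?_
    refine Finset.sum_congr rfl fun x hx => Finset.sum_congr rfl fun y hy => ?_
    have a := (hG' x hx).2
    have b : star (δ y) ≠ 0 := star_ne_zero.2 (hG' y hy).2
    simp only [hδ, smul_mulVec, mulVec_smul, dotProduct_smul, star_smul, smul_dotProduct,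
      smul_eq_mul, star_inv₀, star_star]
    field_simp
  refine ⟨fun x => if δ x = 0 then W x else Φ x, fun G hG v => ?_, fun x hx => ?_⟩
  · refine le_of_le_of_eq (h1 G hG fun x => star (δ x) • v x) ?_
    refine Finset.sum_congr rfl fun x hx => Finset.sum_congr rfl fun y hy => ?_
    simp only [hδ, smul_mulVec, mulVec_smul, dotProduct_smul, star_smul, smul_dotProduct,
      smul_eq_mul, star_star]
    by_cases a : δ x = 0
    · simp [a]
    by_cases b : δ y = 0
    · simp [b]
    simp only [a, b, if_false]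
    ring
  · by_cases a : δ x = 0
    · simp [a]
    · simp only [a, if_false]; exact h2 x (by simp [hx, a])

end Pool.Agent.Results.MP_a92470_an.TwoPoint
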